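import Pool.Agent.H56.G3.TS
import Pool.Agent.H72.EN.Targets

/-!
Module SZ of the board gs3_modules.
-/

set_option autoImplicit false

namespace Pool.Agent.H18.G3

open Finset Pool.Agent.H56.G3 Pool.Agent.H6.N4D Pool.Agent.H93.EB Pool.Agent.H93.GS

theorem sz_mult (q n : ℕ) (hq : 1 ≤ q) (N : ℕ) :
    ∑ m ∈ Ioc n (n + N), (if q ∣ m then (q : ℝ) else 0) =
      (q : ℝ) * (((n + N) / q : ℕ) : ℝ) - (q : ℝ) * ((n / q : ℕ) : ℝ) := by
  induction N with
  | zero => simp
  | succ N ih =>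
    rw [← Nat.add_assoc, Finset.sum_Ioc_succ_top (Nat.le_add_right n N), ih, Nat.succ_div]
    split_ifs <;> push_cast <;> ring

theorem sz_D (q n N : ℕ) (hq : 1 ≤ q) (hN : q ≤ N) :
    ∑ m ∈ Ioc n (n + N), |D q m| ≤ 3 * N := by
  have h1 : ∀ m ∈ Ioc n (n + N), |D q m| ≤ (if q ∣ m then (q : ℝ) else 0) + 1 := by
    intro m _
    unfold D
    have h0 : (0 : ℝ) ≤ if q ∣ m then (q : ℝ) else 0 := by
      split_ifs
      · exact Nat.cast_nonneg q
      · exact le_rfl
    rw [abs_le]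
    constructor <;> linarith
  refine (Finset.sum_le_sum h1).trans ?_
  rw [Finset.sum_add_distrib, sz_mult q n hq N, Finset.sum_const, Nat.card_Ioc, nsmul_eq_mul]
  have h2 : q * ((n + N) / q) ≤ n + N := Nat.mul_div_le _ _
  have h3 : n < q * (n / q) + q := by
    have := Nat.lt_mul_div_succ n (show 0 < q by omega)
    rw [Nat.mul_add, Nat.mul_one] at this
    exact this
  have h2' : (q : ℝ) * (((n + N) / q : ℕ) : ℝ) ≤ (n : ℝ) + N := by exact_mod_cast h2
  have h3' : (n : ℝ) < (q : ℝ) * ((n / q : ℕ) : ℝ) + q := by exact_mod_cast h3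
  have h4 : (q : ℝ) ≤ N := by exact_mod_cast hN
  have h5 : ((n + N - n : ℕ) : ℝ) = N := by
    rw [Nat.add_sub_cancel_left]
  rw [h5]
  linarith

theorem sz_zz (lam : ℕ → ℝ) (hl : B1 lam) (q N n : ℕ) (hq : 1 ≤ q) (hN : q ≤ N) (α : ℝ) :
    0 ≤ zz lam q N n α (fun _ => 1) ∧ zz lam q N n α (fun _ => 1) ≤ 3 := by
  refine ⟨norm_nonneg _, ?_⟩
  have hNp : (0 : ℝ) < N := by
    have : 0 < N := by omega
    exact_mod_cast this
  unfold zz
  rw [norm_div, Complex.norm_natCast, div_le_iff₀ hNp]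
  refine (norm_sum_le _ _).trans (le_trans (Finset.sum_le_sum fun m _ => ?_) (sz_D q n N hq hN))
  rw [norm_mul, norm_mul, norm_mul, norm_ee, norm_one, Complex.norm_real, Complex.norm_real,
    Real.norm_eq_abs, Real.norm_eq_abs, mul_one, mul_one]
  have h1 := mul_le_mul_of_nonneg_right (hl m) (abs_nonneg (D q m))
  rw [one_mul] at h1
  exact h1

theorem sz_q (m q : ℕ) (hq : q ∈ QQ m) : 1 ≤ q ∧ q ≤ 2 ^ m := by
  unfold QQ at hq
  rw [Finset.mem_filter, Finset.mem_Ioc] at hq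
  obtain ⟨⟨_, h2⟩, h3⟩ := hq
  refine ⟨h3.one_lt.le, h2.trans (Nat.pow_le_pow_right (by norm_num) (Nat.div_le_self _ _))⟩

theorem pf_SZ (hRB : T_RB) (hBAB : Pool.Agent.H72.EN.T_BAB) : T_SZ := by
  intro th W lam m hth _ hl hm hW
  set F : ℕ → ℝ → ℝ := fun v α => ∑ q ∈ QQ m, 1 / (q : ℝ) * zz lam q (2 ^ m) v α (fun _ => 1) ^ 2
    with hF
  have hF0 : ∀ v α, 0 ≤ F v α := by
    intro v α
    exact Finset.sum_nonneg fun q _ => by positivity
  have hF9 : ∀ v α, F v α ≤ 9 * W := by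
    intro v α
    calc F v α ≤ ∑ q ∈ QQ m, 1 / (q : ℝ) * 9 := by
          refine Finset.sum_le_sum fun q hq => ?_
          obtain ⟨h1, h2⟩ := sz_q m q hq
          obtain ⟨z0, z3⟩ := sz_zz lam hl q (2 ^ m) v h1 h2 α
          refine mul_le_mul_of_nonneg_left ?_ (by positivity)
          nlinarith
      _ = 9 * ∑ q ∈ QQ m, 1 / (q : ℝ) := by
          rw [← Finset.sum_mul, mul_comm]
      _ ≤ 9 * W := by linarith
  have hbd : ∀ v, BddAbove (Set.range (F v)) := by
    intro v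
    refine ⟨9 * W, ?_⟩
    rintro _ ⟨α, rfl⟩
    exact hF9 v α
  have hzs : ∀ v, zs lam m v = ⨆ α : ℝ, F v α := fun v => rfl
  have hle : ∀ v α, F v α ≤ zs lam m v := by
    intro v α
    rw [hzs]
    exact le_ciSup (hbd v) α
  refine ⟨fun v => ⟨(hF0 v 0).trans (hle v 0), ?_, ?_, ?_⟩, hle, fun X hX => ⟨?_, rfl⟩⟩
  · rw [hzs]
    exact ciSup_le fun α => hF9 v α
  · unfold ts
    exact Finset.sum_nonneg fun q _ => by positivity
  · unfold ts
    calc ∑ q ∈ QQ m, 1 / (q : ℝ) * |En th lam q (2 ^ m) v - En th lam 1 (2 ^ m) v|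
        ≤ ∑ q ∈ QQ m, 1 / (q : ℝ) * 4 := by
          refine Finset.sum_le_sum fun q hq => ?_
          obtain ⟨h1, h2⟩ := sz_q m q hq
          refine mul_le_mul_of_nonneg_left ?_ (by positivity)
          have hp : 1 ≤ 2 ^ m := Nat.one_le_two_pow
          obtain ⟨-, a0, a1, -⟩ := hRB th lam q (2 ^ m) v hth hl h1 hp
          obtain ⟨-, b0, b1, -⟩ := hRB th lam 1 (2 ^ m) v hth hl le_rfl hp
          have hpp : (0 : ℝ) < ((2 ^ m : ℕ) : ℝ) := by positivity
          have c1 : (q : ℝ) / ((2 ^ m : ℕ) : ℝ) ≤ 1 := by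
            rw [div_le_one hpp]
            exact_mod_cast h2
          have c2 : ((1 : ℕ) : ℝ) / ((2 ^ m : ℕ) : ℝ) ≤ 1 := by
            rw [div_le_one hpp]
            exact_mod_cast hp
          rw [abs_le]
          constructor <;> linarith
      _ = 4 * ∑ q ∈ QQ m, 1 / (q : ℝ) := by
          rw [← Finset.sum_mul, mul_comm]
      _ ≤ 4 * W := by linarith
  · obtain ⟨-, -, hA, -⟩ := hBAB lam X m hl
    have hH0 : 0 ≤ ∑ n ∈ Icc 1 X, 1 / (n : ℝ) := Finset.sum_nonneg fun n _ => by positivity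
    refine le_of_forall_pos_le_add fun ε hε => ?_
    set η := ε / (∑ n ∈ Icc 1 X, 1 / (n : ℝ) + 1) with hη
    have hηp : 0 < η := by positivity
    have hex : ∀ n : ℕ, ∃ α : ℝ, zs lam m n - η < F n α := by
      intro n
      have : zs lam m n - η < ⨆ α : ℝ, F n α := by
        rw [← hzs]
        linarith
      exact exists_lt_of_lt_ciSup this
    choose α hα using hex
    have h1 := hA α (fun _ _ _ => 1) (fun n q _ => ⟨fun k _ => by simp, by simp⟩)
    have h2 : lg X (zs lam m) ≤ Pool.Agent.H72.EN.bv lam X m (fun n _ => α n) (fun _ _ _ => 1) +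
        η * ∑ n ∈ Icc 1 X, 1 / (n : ℝ) := by
      unfold Pool.Agent.H72.EN.bv lg
      rw [Finset.mul_sum, ← Finset.sum_add_distrib]
      refine Finset.sum_le_sum fun n _ => ?_
      have h3 : zs lam m n ≤ F n (α n) + η := by linarith [hα n]
      calc zs lam m n / n ≤ (F n (α n) + η) / n := div_le_div_of_nonneg_right h3 (Nat.cast_nonneg n)
        _ = _ := by
          rw [add_div, mul_one_div]
    have h4 : η * ∑ n ∈ Icc 1 X, 1 / (n : ℝ) ≤ ε := by
      rw [hη, div_mul_eq_mul_div, div_le_iff₀ (by positivity)]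
      nlinarith
    linarith

end Pool.Agent.H18.G3
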